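import Mathlib

set_option autoImplicit false

/-!
# Infinitely many exceptional tuples `(x, 1, 1, 2)`

For `d = 2` and the portrait `(1, 1)` a point `x = P / Q` in `K(t)` realises the portrait at `t = c`
only if `-x(c)` is a fixed point of `z ^ 2 + c`, that is `P² + P Q + t Q² = 0` at `c`.  The left
side is the norm of `P - Q ω`, `ω² + ω + t = 0`; for `P - Q ω = ω ^ k` it is `t ^ k`, which vanishes
only at `t = 0`, where `x = 0` is itself fixed.  For `k = 3` this is `x = t / (t - 1)`.
-/

namespace Pool.Agent.Results.MP_13ba09_nt.InfinitelyMany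

open Polynomial
open scoped OnePoint

/-- `y` has portrait `(M, N)` for `f`: `f^M y` is periodic of exact period `N`, and `M` is minimal
(either `M = 0` or `f^(M-1) y` is not periodic). -/
def HasPortrait {A : Type*} (f : A → A) (y : A) (M N : ℕ) : Prop :=
  f^[M + N] y = f^[M] y ∧ (∀ n, 0 < n → n < N → f^[M + n] y ≠ f^[M] y) ∧
    (M = 0 ∨ ¬ ∃ m, 0 < m ∧ f^[m] (f^[M - 1] y) = f^[M - 1] y)

/-- The map `z ^ d + c` on `P¹(K) = K ∪ {∞}`. -/
def phi {K : Type*} [Field K] (d : ℕ) (c : K) : OnePoint K → OnePoint K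
  | Option.none => ∞
  | Option.some z => ((z ^ d + c : K) : OnePoint K)

/-- The reduction of `x` in `K(t)` at the place `t = c`, a point of `P¹(K)`. -/
noncomputable def red {K : Type*} [Field K] (x : RatFunc K) (c : K) : OnePoint K :=
  open Classical in
  if x.denom.eval c = 0 then ∞ else ((x.num.eval c / x.denom.eval c : K) : OnePoint K)

/-- `(x, M, N, d)` is exceptional: `x` is not constant, `N ≥ 1`, `d ≥ 2`, and there is no place
`t = c` at which the reduction of `x` has portrait `(M, N)` for `z ^ d + c`. -/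
def Exceptional {K : Type*} [Field K] (x : RatFunc K) (M N d : ℕ) : Prop :=
  (¬ ∃ a : K, x = RatFunc.C a) ∧ 1 ≤ N ∧ 2 ≤ d ∧ ¬ ∃ c : K, HasPortrait (phi d c) (red x c) M N

section

variable {K : Type*} [Field K]

/-- Coefficients of `ω ^ (k + 1) = P - Q ω`. -/
noncomputable def PQ (K : Type*) [Field K] : ℕ → K[X] × K[X]
  | 0 => (0, -1)
  | k + 1 => (X * (PQ K k).2, -((PQ K k).1 + (PQ K k).2))

theorem norm_PQ (k : ℕ) : (PQ K k).1 ^ 2 + (PQ K k).1 * (PQ K k).2 + X * (PQ K k).2 ^ 2 =
    X ^ (k + 1) := by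
  induction k with
  | zero => simp [PQ]
  | succ k ih =>
    simp only [PQ]
    rw [pow_succ X (k + 1), ← ih]
    ring

theorem P_eval_zero (k : ℕ) : (PQ K k).1.eval 0 = 0 := by
  cases k <;> simp [PQ]

theorem Q_eval_zero (k : ℕ) : (PQ K k).2.eval 0 ≠ 0 := by
  induction k with
  | zero => simp [PQ]
  | succ k ih => simpa [PQ, P_eval_zero] using ih

theorem Q_ne_zero (k : ℕ) : (PQ K k).2 ≠ 0 := by
  intro h
  apply Q_eval_zero (K := K) k
  rw [h, eval_zero]

/-- The rational function `P / Q`. -/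
noncomputable def pt (K : Type*) [Field K] (k : ℕ) : RatFunc K :=
  algebraMap K[X] (RatFunc K) (PQ K k).1 / algebraMap K[X] (RatFunc K) (PQ K k).2

theorem pt_sq (k : ℕ) : pt K k ^ 2 + pt K k + RatFunc.X =
    RatFunc.X ^ (k + 1) / algebraMap K[X] (RatFunc K) (PQ K k).2 ^ 2 := by
  have h := congrArg (algebraMap K[X] (RatFunc K)) (norm_PQ (K := K) k)
  simp only [map_add, map_mul, map_pow, RatFunc.algebraMap_X] at h
  have hQ : algebraMap K[X] (RatFunc K) (PQ K k).2 ≠ 0 := by
    intro h0
    exact Q_ne_zero k (RatFunc.algebraMap_injective K (by rw [h0, map_zero]))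
  rw [← h, pt]
  field_simp

theorem num_mul (x : RatFunc K) (P Q : K[X]) (hQ : Q ≠ 0)
    (hx : x = algebraMap K[X] (RatFunc K) P / algebraMap K[X] (RatFunc K) Q) :
    x.num * Q = P * x.denom := by
  have h1 : algebraMap K[X] (RatFunc K) Q ≠ 0 := by
    intro h0
    exact hQ (RatFunc.algebraMap_injective K (by rw [h0, map_zero]))
  have h2 : algebraMap K[X] (RatFunc K) x.denom ≠ 0 := by
    intro h0
    exact x.denom_ne_zero (RatFunc.algebraMap_injective K (by rw [h0, map_zero]))
  have h3 : algebraMap K[X] (RatFunc K) x.num / algebraMap K[X] (RatFunc K) x.denom =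
      algebraMap K[X] (RatFunc K) P / algebraMap K[X] (RatFunc K) Q := by
    rw [RatFunc.num_div_denom, hx]
  rw [div_eq_div_iff h2 h1] at h3
  apply RatFunc.algebraMap_injective K
  rw [map_mul, map_mul, h3]

/-- At a point where `x = P / Q` is regular with value `y`: `y² + y + c = 0` forces `c = 0`, and at
`c = 0` the value is `0`. -/
theorem value (k : ℕ) (c y : K) (h : red (pt K k) c = (y : OnePoint K))
    (hy : y ^ 2 + c = -y) : c = 0 ∧ y = 0 := by
  unfold red at h
  split_ifs at h with h0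
  · exact absurd h (OnePoint.infty_ne_coe _)
  rw [OnePoint.coe_eq_coe] at h
  have hmul := num_mul (pt K k) _ _ (Q_ne_zero k) rfl
  have e1 : (pt K k).num.eval c * (PQ K k).2.eval c = (PQ K k).1.eval c * (pt K k).denom.eval c := by
    rw [← eval_mul, hmul, eval_mul]
  have e2 : (PQ K k).1.eval c = y * (PQ K k).2.eval c := by
    rw [← h]
    field_simp
    linear_combination (-1) * e1
  have e3 := congrArg (eval c) (norm_PQ (K := K) k)
  simp only [eval_add, eval_mul, eval_pow, eval_X] at e3
  rw [e2] at e3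
  have e4 : c ^ (k + 1) = 0 := by
    rw [← e3]
    linear_combination ((PQ K k).2.eval c) ^ 2 * hy
  have e5 : c = 0 := pow_eq_zero_iff (Nat.succ_ne_zero k) |>.mp e4
  refine ⟨e5, ?_⟩
  rw [e5, P_eval_zero] at e2
  rcases mul_eq_zero.mp e2.symm with h6 | h6
  · exact h6
  · exact absurd h6 (Q_eval_zero k)

theorem not_const [CharZero K] (k : ℕ) (hk : 1 ≤ k) : ¬ ∃ a : K, pt K k = RatFunc.C a := by
  rintro ⟨a, ha⟩
  have h := pt_sq (K := K) k
  have hQ : algebraMap K[X] (RatFunc K) (PQ K k).2 ≠ 0 := by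
    intro h0
    exact Q_ne_zero k (RatFunc.algebraMap_injective K (by rw [h0, map_zero]))
  rw [ha, eq_div_iff (pow_ne_zero 2 hQ)] at h
  have h1 : (C a ^ 2 + C a + X) * (PQ K k).2 ^ 2 = (X : K[X]) ^ (k + 1) := by
    apply RatFunc.algebraMap_injective K
    rw [map_mul, map_pow, map_pow, map_add, map_add, map_pow, RatFunc.algebraMap_C,
      RatFunc.algebraMap_X]
    exact h
  -- evaluate at `0` and at `-(a² + a)`
  have h2 := congrArg (eval (0 : K)) h1
  simp only [eval_mul, eval_add, eval_pow, eval_C, eval_X] at h2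
  rw [zero_pow (Nat.succ_ne_zero k), add_zero] at h2
  have h3 : a ^ 2 + a = 0 := by
    rcases mul_eq_zero.mp h2 with h4 | h4
    · exact h4
    · exact absurd (pow_eq_zero_iff (two_ne_zero) |>.mp h4) (Q_eval_zero k)
  have h5 : (C a ^ 2 + C a + X : K[X]) = X := by
    rw [← C_pow, ← C_add, h3, C_0, zero_add]
  rw [h5, pow_succ' X k, mul_right_inj' X_ne_zero] at h1
  have h6 := congrArg (eval (0 : K)) h1
  simp only [eval_pow, eval_X] at h6
  rw [zero_pow (by omega)] at h6
  exact Q_eval_zero k (pow_eq_zero_iff (two_ne_zero) |>.mp h6)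

theorem phi_coe (d : ℕ) (c z : K) : phi d c (z : OnePoint K) = ((z ^ d + c : K) : OnePoint K) := rfl

theorem phi_infty (d : ℕ) (c : K) : phi d c (∞ : OnePoint K) = ∞ := rfl

theorem exceptional [CharZero K] (k : ℕ) (hk : 1 ≤ k) : Exceptional (pt K k) 1 1 2 := by
  refine ⟨not_const k hk, le_rfl, le_rfl, ?_⟩
  rintro ⟨c, h1, -, h3⟩
  rcases h3 with h3 | h3
  · exact one_ne_zero h3
  apply h3
  rcases hr : red (pt K k) c with _ | y
  · -- the point at infinity is fixed
    exact ⟨1, one_pos, rfl⟩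
  · change red (pt K k) c = (y : OnePoint K) at hr
    change ∃ m, 0 < m ∧ (phi 2 c)^[m] ((phi 2 c)^[1 - 1] (y : OnePoint K)) =
      (phi 2 c)^[1 - 1] (y : OnePoint K)
    rw [hr] at h1
    simp only [Function.iterate_succ_apply, Function.iterate_zero_apply, phi_coe,
      OnePoint.coe_eq_coe] at h1
    have h4 : (y ^ 2 + c - y) * (y ^ 2 + c + y) = 0 := by linear_combination h1
    rcases mul_eq_zero.mp h4 with h5 | h5
    · refine ⟨1, one_pos, ?_⟩
      simp only [Nat.sub_self, Function.iterate_zero, id_eq, Function.iterate_one, phi_coe,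
        OnePoint.coe_eq_coe]
      linear_combination h5
    · obtain ⟨hc, hy⟩ := value k c y hr (by linear_combination h5)
      refine ⟨1, one_pos, ?_⟩
      simp [phi_coe, hc, hy]

theorem pt_injective : Function.Injective (pt K) := by
  have key : ∀ j k : ℕ, j < k → pt K j ≠ pt K k := by
    intro j k hjk heq
    have h1 := pt_sq (K := K) j
    have h2 := pt_sq (K := K) k
    rw [heq, h2] at h1
    have hQj : algebraMap K[X] (RatFunc K) (PQ K j).2 ≠ 0 := by
      intro h0
      exact Q_ne_zero j (RatFunc.algebraMap_injective K (by rw [h0, map_zero]))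
    have hQk : algebraMap K[X] (RatFunc K) (PQ K k).2 ≠ 0 := by
      intro h0
      exact Q_ne_zero k (RatFunc.algebraMap_injective K (by rw [h0, map_zero]))
    rw [div_eq_div_iff (pow_ne_zero 2 hQk) (pow_ne_zero 2 hQj)] at h1
    have h3 : (X : K[X]) ^ (k + 1) * (PQ K j).2 ^ 2 = X ^ (j + 1) * (PQ K k).2 ^ 2 := by
      apply RatFunc.algebraMap_injective K
      rw [map_mul, map_mul, map_pow, map_pow, map_pow, map_pow, RatFunc.algebraMap_X]
      exact h1
    obtain ⟨i, rfl⟩ := Nat.exists_eq_add_of_lt hjk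
    rw [show j + i + 1 + 1 = (j + 1) + (i + 1) by ring, pow_add, mul_assoc,
      mul_right_inj' (pow_ne_zero _ X_ne_zero)] at h3
    have h4 := congrArg (eval (0 : K)) h3
    simp only [eval_mul, eval_pow, eval_X] at h4
    rw [zero_pow (Nat.succ_ne_zero i), zero_mul] at h4
    exact Q_eval_zero _ (pow_eq_zero_iff (two_ne_zero) |>.mp h4.symm)
  intro j k h
  rcases lt_trichotomy j k with h1 | h1 | h1
  · exact absurd h (key j k h1)
  · exact h1
  · exact absurd h.symm (key k j h1)

end

universe u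

/-- Over every field `K` of characteristic zero (in particular every algebraically closed one)
there are infinitely many `x` in `K(t)` for which `(x, 1, 1, 2)` is exceptional; in particular
there are exceptional tuples other than `(-t, 1, 1, 2)` and `(t + 1, 1, 2, 2)`. -/
theorem result (K : Type u) [Field K] [CharZero K] [IsAlgClosed K] :
    {x : RatFunc K | Exceptional x 1 1 2}.Infinite ∧
    ∃ (x : RatFunc K) (M N d : ℕ), Exceptional x M N d ∧
      (x, M, N, d) ≠ (-RatFunc.X, 1, 1, 2) ∧ (x, M, N, d) ≠ (RatFunc.X + 1, 1, 2, 2) := by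
  have hinf : {x : RatFunc K | Exceptional x 1 1 2}.Infinite := by
    refine Set.infinite_of_injective_forall_mem (f := fun k : ℕ => pt K (k + 1)) ?_ ?_
    · intro a b h
      have := pt_injective h
      omega
    · intro k
      exact exceptional (k + 1) (by omega)
  refine ⟨hinf, ?_⟩
  obtain ⟨x, hx, hne⟩ := (hinf.sdiff (Set.finite_singleton (-RatFunc.X : RatFunc K))).nonempty
  refine ⟨x, 1, 1, 2, hx, ?_, ?_⟩
  · intro h
    exact hne (congrArg Prod.fst h)
  · intro h
    have := congrArg (fun q : RatFunc K × ℕ × ℕ × ℕ => q.2.2.1) h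
    simp at this

end Pool.Agent.Results.MP_13ba09_nt.InfinitelyMany
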